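import Pool.Agent.K1H14.SD.Stm

/-!
# Project SD, piece INT: the intertwiner of an antilinear automorphism
-/

namespace Pool.Agent.K1H73.SD

open Pool.Agent.K1H14.SD

open scoped symmDiff

universe u

lemma mem_evs {d : ℕ} {K : Finset (Fin d)} : K ∈ evs d ↔ Even K.card := by
  simp [evs]

lemma even_symmDiff {d : ℕ} {K L : Finset (Fin d)} (hK : Even K.card) (hL : Even L.card) :
    Even (K ∆ L).card := by
  have h1 : (K ∆ L).card = (K \ L).card + (L \ K).card := by
    rw [symmDiff_def, Finset.sup_eq_union]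
    exact Finset.card_union_of_disjoint (disjoint_sdiff_sdiff)
  have h2 : (K \ L).card + (K ∩ L).card = K.card := Finset.card_sdiff_add_card_inter K L
  have h3 : (L \ K).card + (L ∩ K).card = L.card := Finset.card_sdiff_add_card_inter L K
  rw [Finset.inter_comm] at h3
  rw [Nat.even_iff] at *
  omega

section

variable {A : Type u} [Ring A] [Algebra ℂ A] {d : ℕ} {M : Finset (Fin d) → A} {st : A →ₗ[ℂ] A}
  {α : A → A}

lemma st_one (h : EvenCl M st) : st 1 = 1 := by
  have h1 := h.st_M ∅ (by simp)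
  rw [h.one] at h1
  simpa using h1

lemma inv' (h : EvenCl M st) {K : Finset (Fin d)} (hK : Even K.card) : M K * st (M K) = 1 := by
  have h1 := h.st_inv K hK
  rw [h.st_M K hK] at h1 ⊢
  rw [smul_mul_assoc] at h1
  rw [mul_smul_comm]
  exact h1

lemma conj_eps {ε : ℂ} (h : ε = 1 ∨ ε = -1) : (starRingEnd ℂ) ε = ε := by
  rcases h with h | h <;> simp [h]

lemma eps_pow (n : ℕ) : (-1 : ℂ) ^ n = 1 ∨ (-1 : ℂ) ^ n = -1 := neg_one_pow_eq_or ℂ n

/-- the averaged map -/
noncomputable def av (M : Finset (Fin d) → A) (st : A →ₗ[ℂ] A) (α : A → A) (z : A) : A :=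
  ∑ K ∈ evs d, α (M K) * z * st (M K)

lemma av_comm (h : EvenCl M st) (ha : AntiAut st α) (z : A) {L : Finset (Fin d)}
    (hL : Even L.card) : α (M L) * av M st α z = av M st α z * M L := by
  have key : ∀ K : Finset (Fin d), Even K.card →
      α (M L) * (α (M K) * z * st (M K)) = α (M (L ∆ K)) * z * st (M (L ∆ K)) * M L := by
    intro K hK
    obtain ⟨ε, hε, hm⟩ := h.mul L K hL hK
    have h1 : α (M L) * α (M K) = ε • α (M (L ∆ K)) := by
      rw [← ha.mul, hm, ha.smul, conj_eps hε]
    have h2 : st (M K) * st (M L) = ε • st (M (L ∆ K)) := by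
      rw [← h.st_mul, hm, map_smul]
    have h3 : st (M K) = ε • (st (M (L ∆ K)) * M L) := by
      rw [← smul_mul_assoc, ← h2, mul_assoc, h.st_inv L hL, mul_one]
    have h4 : ε * ε = 1 := by rcases hε with h | h <;> simp [h]
    calc α (M L) * (α (M K) * z * st (M K))
        = (α (M L) * α (M K)) * z * st (M K) := by simp only [mul_assoc]
      _ = (ε • α (M (L ∆ K))) * z * (ε • (st (M (L ∆ K)) * M L)) := by rw [h1, ← h3]
      _ = (ε * ε) • (α (M (L ∆ K)) * z * st (M (L ∆ K)) * M L) := by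
          rw [smul_mul_assoc, smul_mul_assoc, mul_smul_comm, smul_smul]
          simp only [mul_assoc]
      _ = α (M (L ∆ K)) * z * st (M (L ∆ K)) * M L := by rw [h4, one_smul]
  unfold av
  rw [Finset.mul_sum, Finset.sum_mul]
  refine Finset.sum_nbij' (fun K => L ∆ K) (fun K => L ∆ K) ?_ ?_ ?_ ?_ ?_
  · intro K hK
    exact mem_evs.mpr (even_symmDiff hL (mem_evs.mp hK))
  · intro K hK
    exact mem_evs.mpr (even_symmDiff hL (mem_evs.mp hK))
  · intro K _
    exact symmDiff_symmDiff_cancel_left L K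
  · intro K _
    exact symmDiff_symmDiff_cancel_left L K
  · intro K hK
    exact key K (mem_evs.mp hK)

lemma tr_st (h : EvenCl M st) {tr : A →ₗ[ℂ] ℂ} (ht : IsTr M tr) {K : Finset (Fin d)}
    (hK : Even K.card) : tr (st (M K)) = if K = ∅ then 1 else 0 := by
  rw [h.st_M K hK, map_smul, ht.1 K hK]
  split_ifs with h1
  · subst h1
    simp
  · simp

lemma exists_ne (h2 : S_AVG.{u}) (h : EvenCl M st) (ha : AntiAut st α) {tr : A →ₗ[ℂ] ℂ}
    (ht : IsTr M tr) : ∃ J : Finset (Fin d), Even J.card ∧ av M st α (M J) ≠ 0 := by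
  by_contra hcon
  push Not at hcon
  have h0 : ∑ J ∈ evs d, av M st α (M J) * st (M J) = 0 := by
    refine Finset.sum_eq_zero fun J hJ => ?_
    rw [hcon J (mem_evs.mp hJ), zero_mul]
  have h3 : ∑ J ∈ evs d, av M st α (M J) * st (M J) =
      ∑ K ∈ evs d, α (M K) * ((2 : ℂ) ^ (d - 1) * tr (st (M K))) • (1 : A) := by
    have e1 : ∀ J ∈ evs d, av M st α (M J) * st (M J) =
        ∑ K ∈ evs d, α (M K) * (M J * st (M K) * st (M J)) := by
      intro J _
      unfold av
      rw [Finset.sum_mul]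
      refine Finset.sum_congr rfl fun K _ => ?_
      simp only [mul_assoc]
    rw [Finset.sum_congr rfl e1, Finset.sum_comm]
    refine Finset.sum_congr rfl fun K _ => ?_
    rw [← Finset.mul_sum, (h2 M st tr h ht).1 (st (M K))]
  rw [h3] at h0
  have h4 : ∑ K ∈ evs d, α (M K) * ((2 : ℂ) ^ (d - 1) * tr (st (M K))) • (1 : A) =
      (2 : ℂ) ^ (d - 1) • (1 : A) := by
    rw [Finset.sum_eq_single ∅]
    · rw [tr_st h ht (by simp), h.one, ha.one]
      simp
    · intro K hK hne
      rw [tr_st h ht (mem_evs.mp hK), if_neg hne]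
      simp
    · intro h5
      exact absurd (mem_evs.mpr (by simp)) h5
  rw [h4] at h0
  rcases smul_eq_zero.mp h0 with h5 | h5
  · exact absurd h5 (pow_ne_zero _ (by norm_num))
  · exact h.ne h5

lemma st_comm (h : EvenCl M st) (ha : AntiAut st α) {s : A} {L : Finset (Fin d)}
    (hL : Even L.card) (hs : α (M L) * s = s * M L) : st s * α (M L) = M L * st s := by
  have h1 := congrArg st hs
  rw [h.st_mul, h.st_mul, ← ha.st, h.st_M L hL, ha.smul, conj_eps (eps_pow _), mul_smul_comm,
    smul_mul_assoc] at h1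
  have h2 : ((-1 : ℂ) ^ (L.card / 2)) ≠ 0 := pow_ne_zero _ (by norm_num)
  exact (smul_right_injective A h2) h1

lemma central (h2 : S_AVG.{u}) (h : EvenCl M st) {tr : A →ₗ[ℂ] ℂ} (ht : IsTr M tr) {x : A}
    (hx : ∀ K : Finset (Fin d), Even K.card → M K * x = x * M K) : x = tr x • (1 : A) := by
  have h1 := (h2 M st tr h ht).1 x
  have h3 := (h2 M st tr h ht).1 1
  have h4 : tr 1 = 1 := by
    have := ht.1 ∅ (by simp)
    rw [h.one] at this
    simpa using this
  rw [h4, mul_one] at h3
  have h5 : ∑ K ∈ evs d, M K * x * st (M K) = x * ∑ K ∈ evs d, M K * 1 * st (M K) := by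
    rw [Finset.mul_sum]
    refine Finset.sum_congr rfl fun K hK => ?_
    rw [hx K (mem_evs.mp hK)]
    simp only [mul_assoc, one_mul]
  rw [h5, h3, mul_smul_comm, mul_one, mul_smul] at h1
  have h6 : ((2 : ℂ) ^ (d - 1)) ≠ 0 := pow_ne_zero _ (by norm_num)
  exact (smul_right_injective A h6) h1

lemma alpha_add_zero (ha : AntiAut st α) : α 0 = 0 := by
  have h1 := ha.add 0 0
  rw [add_zero] at h1
  exact left_eq_add.mp h1

end

theorem t_INT (h1 : S_TR.{u}) (h2 : S_AVG.{u}) (h3 : S_PRM.{u}) : S_INT.{u} := by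
  intro A _ _ d M st α h ha
  obtain ⟨hfin, tr, ht⟩ := h1 M st h
  obtain ⟨J, hJ, hne⟩ := exists_ne h2 h ha ht
  set s := av M st α (M J) with hs
  have hc : ∀ L : Finset (Fin d), Even L.card → α (M L) * s = s * M L := fun L hL =>
    av_comm h ha (M J) hL
  have hc' : ∀ L : Finset (Fin d), Even L.card → st s * α (M L) = M L * st s := fun L hL =>
    st_comm h ha hL (hc L hL)
  have hcen : ∀ K : Finset (Fin d), Even K.card → M K * (st s * s) = (st s * s) * M K := by
    intro K hK
    rw [← mul_assoc, ← hc' K hK, mul_assoc, hc K hK, mul_assoc]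
  have hν := central h2 h ht hcen
  set ν := tr (st s * s) with hνd
  have hν0 : ν ≠ 0 := by
    intro h0
    rw [h0, zero_smul] at hν
    have e1 : ∀ x : A, st s * α x * s = 0 := by
      intro x
      induction h.span x using Submodule.span_induction with
      | mem y hy =>
        obtain ⟨K, hK, rfl⟩ := hy
        rw [hc' K hK, mul_assoc, hν, mul_zero]
      | zero => rw [alpha_add_zero ha, mul_zero, zero_mul]
      | add y z _ _ hy hz => rw [ha.add, mul_add, add_mul, hy, hz, add_zero]
      | smul c y _ hy => rw [ha.smul, mul_smul_comm, smul_mul_assoc, hy, smul_zero]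
    have e2 : ∀ K : Finset (Fin d), Even K.card → st s * M K * s = 0 := by
      intro K _
      obtain ⟨x, hx⟩ := ha.bij.2 (M K)
      rw [← hx]
      exact e1 x
    rcases h3 M st h (st s) s e2 with e3 | e3
    · apply hne
      have := h.st_st s
      rw [e3, map_zero] at this
      exact this.symm
    · exact hne e3
  obtain ⟨μ, hμ⟩ := IsAlgClosed.exists_eq_mul_self ν
  have hμ0 : μ ≠ 0 := by
    intro h0
    rw [h0, mul_zero] at hμ
    exact hν0 hμ
  have hone : st (μ⁻¹ • s) * (μ⁻¹ • s) = 1 := by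
    rw [map_smul, smul_mul_assoc, mul_smul_comm, smul_smul, hν, smul_smul, hμ]
    have : μ⁻¹ * μ⁻¹ * (μ * μ) = 1 := by field_simp
    rw [this, one_smul]
  refine ⟨μ⁻¹ • s, hone, ?_, ?_⟩
  · set t := μ⁻¹ • s with htd
    have hsurj : Function.Surjective (LinearMap.mulLeft ℂ (st t)) := by
      intro x
      refine ⟨t * x, ?_⟩
      rw [LinearMap.mulLeft_apply, ← mul_assoc, hone, one_mul]
    have hinj : Function.Injective (LinearMap.mulLeft ℂ (st t)) :=
      LinearMap.injective_iff_surjective.mpr hsurj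
    apply hinj
    rw [LinearMap.mulLeft_apply, LinearMap.mulLeft_apply, ← mul_assoc, hone, one_mul, mul_one]
  · intro K hK
    rw [mul_smul_comm, hc K hK, smul_mul_assoc]

end Pool.Agent.K1H73.SD
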